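import Mathlib

/-!
The maximal number of complete extensions of an argumentation framework with `n` arguments.
-/

namespace Pool.Agent.Results.MP_acab80_co.SigmaMax

/-- `S` is conflict-free for the attack relation `R`. -/
def ConflictFree {A : Type*} (R : A → A → Prop) (S : Set A) : Prop :=
  ∀ a ∈ S, ∀ b ∈ S, ¬ R a b

/-- `S` defends `a`: every attacker of `a` is attacked by a member of `S`. -/
def Defends {A : Type*} (R : A → A → Prop) (S : Set A) (a : A) : Prop :=
  ∀ b, R b a → ∃ c ∈ S, R c b

/-- `S` is admissible: conflict-free and defending all its members. -/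
def Admissible {A : Type*} (R : A → A → Prop) (S : Set A) : Prop :=
  ConflictFree R S ∧ ∀ a ∈ S, Defends R S a

/-- `S` is a complete extension: admissible and containing every argument it defends. -/
def IsComplete {A : Type*} (R : A → A → Prop) (S : Set A) : Prop :=
  Admissible R S ∧ ∀ a, Defends R S a → a ∈ S

/-- The number of complete extensions. -/
noncomputable def comCount {A : Type*} (R : A → A → Prop) : ℕ :=
  {S : Set A | IsComplete R S}.ncard

/-- The conjectured maximum. -/
def sigmaMax (n : ℕ) : ℕ :=
  if n ≤ 1 then 1 else if Even n then 3 ^ (n / 2) else 4 * 3 ^ ((n - 3) / 2)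

lemma sig0 : sigmaMax 0 = 1 := by simp [sigmaMax]
lemma sig1 : sigmaMax 1 = 1 := by simp [sigmaMax]
lemma sig2 : sigmaMax 2 = 3 := by simp [sigmaMax]
lemma sig3 : sigmaMax 3 = 4 := by
  have h : ¬ Even 3 := by decide
  simp [sigmaMax, h]

lemma sig_rec (n : ℕ) (hn : 2 ≤ n) : sigmaMax (n + 2) = 3 * sigmaMax n := by
  unfold sigmaMax
  have h1 : ¬ (n + 2 ≤ 1) := by omega
  have h2 : ¬ (n ≤ 1) := by omega
  rw [if_neg h1, if_neg h2]
  rcases Nat.even_or_odd n with he | ho
  · have he2 : Even (n + 2) := by
      obtain ⟨k, hk⟩ := he
      exact ⟨k + 1, by omega⟩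
    rw [if_pos he2, if_pos he]
    have : (n + 2) / 2 = n / 2 + 1 := by omega
    rw [this, pow_succ]; ring
  · have ho1 : ¬ Even n := by
      rw [Nat.not_even_iff_odd]; exact ho
    have ho2 : ¬ Even (n + 2) := by
      intro h
      obtain ⟨k, hk⟩ := h
      obtain ⟨l, hl⟩ := ho
      omega
    rw [if_neg ho2, if_neg ho1]
    have : (n + 2 - 3) / 2 = (n - 3) / 2 + 1 := by
      obtain ⟨l, hl⟩ := ho
      omega
    rw [this, pow_succ]; ring

lemma sig_three (n : ℕ) : 3 * sigmaMax n ≤ sigmaMax (n + 2) := by
  rcases Nat.lt_or_ge n 2 with h | h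
  · interval_cases n
    · simp [sig0, sig2]
    · simp [sig1, sig3]
  · rw [sig_rec n h]

lemma sig_mono_succ (n : ℕ) : sigmaMax n ≤ sigmaMax (n + 1) := by
  induction n using Nat.strong_induction_on with
  | _ n ih =>
    match n, ih with
    | 0, _ => simp [sig0, sig1]
    | 1, _ => simp [sig1, sig2]
    | 2, _ => simp [sig2, sig3]
    | 3, _ =>
      have := sig_rec 2 le_rfl
      simp only [Nat.reduceAdd] at this ⊢
      rw [this, sig3, sig2]; norm_num
    | n + 4, ih =>
      have h1 := sig_rec (n + 2) (by omega)
      have h2 := sig_rec (n + 3) (by omega)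
      have h3 := ih (n + 2) (by omega)
      have e1 : n + 2 + 2 = n + 4 := by omega
      have e2 : n + 3 + 2 = n + 4 + 1 := by omega
      have e3 : n + 2 + 1 = n + 3 := by omega
      rw [e1] at h1
      rw [e2] at h2
      rw [e3] at h3
      rw [h1, h2]
      omega

lemma sig_mono : Monotone sigmaMax := monotone_nat_of_le_succ sig_mono_succ

lemma sig_four (n : ℕ) : 4 * sigmaMax n ≤ sigmaMax (n + 3) := by
  induction n using Nat.strong_induction_on with
  | _ n ih =>
    match n, ih with
    | 0, _ => simp [sig0, sig3]
    | 1, _ =>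
      have h4 : sigmaMax (1 + 3) = 9 := by
        have := sig_rec 2 le_rfl
        simp only [Nat.reduceAdd] at this ⊢
        rw [this, sig2]
      rw [sig1, h4]; norm_num
    | 2, _ =>
      have h5 : sigmaMax (2 + 3) = 12 := by
        have := sig_rec 3 (by norm_num)
        simp only [Nat.reduceAdd] at this ⊢
        rw [this, sig3]
      rw [sig2, h5]
    | 3, _ =>
      have h4 : sigmaMax 4 = 9 := by
        have := sig_rec 2 le_rfl
        simp only [Nat.reduceAdd] at this ⊢
        rw [this, sig2]
      have h6 : sigmaMax (3 + 3) = 27 := by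
        have := sig_rec 4 (by norm_num)
        simp only [Nat.reduceAdd] at this ⊢
        rw [this, h4]
      rw [sig3, h6]; norm_num
    | n + 4, ih =>
      have h1 := sig_rec (n + 2) (by omega)
      have h2 := sig_rec (n + 5) (by omega)
      have h3 := ih (n + 2) (by omega)
      have e1 : n + 2 + 2 = n + 4 := by omega
      have e2 : n + 5 + 2 = n + 4 + 3 := by omega
      have e3 : n + 2 + 3 = n + 5 := by omega
      rw [e1] at h1
      rw [e2] at h2
      rw [e3] at h3
      rw [h1, h2]
      omega

lemma sig_pow (b m : ℕ) : 3 ^ b * sigmaMax m ≤ sigmaMax (m + 2 * b) := by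
  induction b with
  | zero => simp
  | succ b ih =>
    have h := sig_three (m + 2 * b)
    have e : m + 2 * b + 2 = m + 2 * (b + 1) := by ring
    rw [e] at h
    calc 3 ^ (b + 1) * sigmaMax m = 3 * (3 ^ b * sigmaMax m) := by ring
      _ ≤ 3 * sigmaMax (m + 2 * b) := Nat.mul_le_mul_left 3 ih
      _ ≤ _ := h

section Count

open Classical in
/-- Subsets of `W` containing no element together with its image under `f`. -/
noncomputable def good {A : Type*} (f : A → A) (W : Finset A) : Finset (Finset A) :=
  W.powerset.filter (fun T => ∀ w ∈ T, f w ∉ T)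

lemma mem_good {A : Type*} {f : A → A} {W T : Finset A} :
    T ∈ good f W ↔ T ⊆ W ∧ ∀ w ∈ T, f w ∉ T := by
  classical
  simp [good]

open Classical in
lemma good_card {A : Type*} : ∀ (m : ℕ) (W : Finset A) (f : A → A), W.card = m →
    (∀ w ∈ W, f w ∈ W) → Set.InjOn f W → (∀ w ∈ W, f w ≠ w) →
    (good f W).card ≤ sigmaMax m := by
  intro m
  induction m using Nat.strong_induction_on with
  | _ m ih =>
  intro W f hm hmap hinj hne
  rcases W.eq_empty_or_nonempty with hW | ⟨u, hu⟩
  · subst hW
    have hm0 : m = 0 := by simpa using hm.symm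
    subst hm0
    rw [sig0]
    have : good f (∅ : Finset A) ⊆ {∅} := by
      intro T hT
      rw [mem_good] at hT
      simp only [Finset.mem_singleton]
      exact Finset.subset_empty.mp hT.1
    exact (Finset.card_le_card this).trans (by simp)
  -- notation
  set v := f u with hv
  have hvW : v ∈ W := hmap u hu
  have huv : v ≠ u := hne u hu
  set y := f v with hy
  have hyW : y ∈ W := hmap v hvW
  have hyv : y ≠ v := hne v hvW
  have hsub2 : ({u, v} : Finset A) ⊆ W := by
    intro z hz
    simp only [Finset.mem_insert, Finset.mem_singleton] at hz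
    rcases hz with rfl | rfl <;> assumption
  have hc2 : ({u, v} : Finset A).card = 2 := Finset.card_pair (Ne.symm huv)
  have hWc : (W \ {u, v}).card = m - 2 := by
    rw [Finset.card_sdiff_of_subset hsub2, hc2, hm]
  have hm2 : 2 ≤ m := by
    rw [← hm, ← hc2]; exact Finset.card_le_card hsub2
  -- the preimage of `u`
  have hsurj : ∃ x ∈ W, f x = u := by
    have himg : W.image f = W := by
      apply Finset.eq_of_subset_of_card_le
      · intro z hz
        rw [Finset.mem_image] at hz
        obtain ⟨w, hw, rfl⟩ := hz
        exact hmap w hw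
      · rw [Finset.card_image_of_injOn hinj]
    have : u ∈ W.image f := by rw [himg]; exact hu
    simpa using this
  obtain ⟨x, hxW, hx⟩ := hsurj
  have hxu : x ≠ u := by
    intro h
    rw [h] at hx
    exact huv (by rw [hv, hx])
  by_cases hyu : y = u
  · -- a two-cycle
    have hmap' : ∀ w ∈ W \ {u, v}, f w ∈ W \ {u, v} := by
      intro w hw
      rw [Finset.mem_sdiff] at hw ⊢
      refine ⟨hmap w hw.1, ?_⟩
      intro hc
      apply hw.2
      simp only [Finset.mem_insert, Finset.mem_singleton] at hc ⊢
      rcases hc with hc | hc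
      · right; exact hinj hw.1 hvW (by rw [hc, ← hy, hyu])
      · left; exact hinj hw.1 hu (by rw [hc])
    have hih := ih (m - 2) (by omega) (W \ {u, v}) f hWc hmap'
      (hinj.mono (by intro z hz; exact (Finset.mem_sdiff.mp hz).1))
      (fun w hw => hne w (Finset.mem_sdiff.mp hw).1)
    have hle : (good f W).card ≤ ((good f (W \ {u, v})) ×ˢ ({∅, {u}, {v}} : Finset (Finset A))).card := by
      apply Finset.card_le_card_of_injOn (fun T => (T \ {u, v}, T ∩ {u, v}))
      · intro T hT
        rw [Finset.mem_coe, mem_good] at hT
        rw [Finset.mem_coe, Finset.mem_product, mem_good]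
        refine ⟨⟨Finset.sdiff_subset_sdiff hT.1 (le_refl _), ?_⟩, ?_⟩
        · intro w hw hw2
          exact hT.2 w (Finset.mem_sdiff.mp hw).1 (Finset.mem_sdiff.mp hw2).1
        · by_cases h1 : u ∈ T
          · have h2 : v ∉ T := hT.2 u h1
            have : T ∩ {u, v} = {u} := by
              ext z; simp only [Finset.mem_inter, Finset.mem_insert, Finset.mem_singleton]
              constructor
              · rintro ⟨hz, rfl | rfl⟩
                · rfl
                · exact absurd hz h2
              · rintro rfl; exact ⟨h1, Or.inl rfl⟩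
            simp [this]
          · by_cases h2 : v ∈ T
            · have : T ∩ {u, v} = {v} := by
                ext z; simp only [Finset.mem_inter, Finset.mem_insert, Finset.mem_singleton]
                constructor
                · rintro ⟨hz, rfl | rfl⟩
                  · exact absurd hz h1
                  · rfl
                · rintro rfl; exact ⟨h2, Or.inr rfl⟩
              simp [this]
            · have : T ∩ {u, v} = ∅ := by
                ext z; simp only [Finset.mem_inter, Finset.mem_insert, Finset.mem_singleton,
                  Finset.notMem_empty, iff_false]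
                rintro ⟨hz, rfl | rfl⟩
                · exact h1 hz
                · exact h2 hz
              simp [this]
      · intro T _ T' _ h
        simp only [Prod.mk.injEq] at h
        rw [← Finset.sdiff_union_inter T {u, v}, ← Finset.sdiff_union_inter T' {u, v}, h.1, h.2]
    rw [Finset.card_product] at hle
    have h3 : ({∅, {u}, {v}} : Finset (Finset A)).card ≤ 3 := Finset.card_le_three
    have h4 := sig_three (m - 2)
    have e : m - 2 + 2 = m := by omega
    rw [e] at h4
    calc (good f W).card ≤ _ := hle
      _ ≤ sigmaMax (m - 2) * 3 := Nat.mul_le_mul hih h3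
      _ ≤ sigmaMax m := by omega
  -- now `x ∉ {u, v}`
  have hxv : x ≠ v := by
    intro h
    apply hyu
    rw [hy, ← h, hx]
  by_cases hxy : x = y
  · -- a three-cycle
    have hfy : f y = u := by rw [← hxy]; exact hx
    have hsub3 : ({u, v, y} : Finset A) ⊆ W := by
      intro z hz
      simp only [Finset.mem_insert, Finset.mem_singleton] at hz
      rcases hz with rfl | rfl | rfl <;> assumption
    have hc3 : ({u, v, y} : Finset A).card = 3 := by
      rw [Finset.card_eq_three]
      exact ⟨u, v, y, Ne.symm huv, Ne.symm hyu, Ne.symm hyv, rfl⟩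
    have hWc3 : (W \ {u, v, y}).card = m - 3 := by
      rw [Finset.card_sdiff_of_subset hsub3, hc3, hm]
    have hm3 : 3 ≤ m := by
      rw [← hm, ← hc3]; exact Finset.card_le_card hsub3
    have hmap' : ∀ w ∈ W \ {u, v, y}, f w ∈ W \ {u, v, y} := by
      intro w hw
      rw [Finset.mem_sdiff] at hw ⊢
      refine ⟨hmap w hw.1, ?_⟩
      intro hc
      apply hw.2
      simp only [Finset.mem_insert, Finset.mem_singleton] at hc ⊢
      rcases hc with hc | hc | hc
      · right; right; exact hinj hw.1 hyW (by rw [hc, hfy])
      · left; exact hinj hw.1 hu (by rw [hc])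
      · right; left; exact hinj hw.1 hvW (by rw [hc])
    have hih := ih (m - 3) (by omega) (W \ {u, v, y}) f hWc3 hmap'
      (hinj.mono (by intro z hz; exact (Finset.mem_sdiff.mp hz).1))
      (fun w hw => hne w (Finset.mem_sdiff.mp hw).1)
    have hle : (good f W).card ≤
        ((good f (W \ {u, v, y})) ×ˢ ({∅, {u}, {v}, {y}} : Finset (Finset A))).card := by
      apply Finset.card_le_card_of_injOn (fun T => (T \ {u, v, y}, T ∩ {u, v, y}))
      · intro T hT
        rw [Finset.mem_coe, mem_good] at hT
        rw [Finset.mem_coe, Finset.mem_product, mem_good]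
        refine ⟨⟨Finset.sdiff_subset_sdiff hT.1 (le_refl _), ?_⟩, ?_⟩
        · intro w hw hw2
          exact hT.2 w (Finset.mem_sdiff.mp hw).1 (Finset.mem_sdiff.mp hw2).1
        · have a1 : u ∈ T → v ∉ T := fun h => hT.2 u h
          have a2 : v ∈ T → y ∉ T := fun h => hT.2 v h
          have a3 : y ∈ T → u ∉ T := fun h => by
            have := hT.2 y h
            rwa [hfy] at this
          simp only [Finset.mem_insert, Finset.mem_singleton]
          by_cases h1 : u ∈ T
          · right; left
            ext z; simp only [Finset.mem_inter, Finset.mem_insert, Finset.mem_singleton]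
            constructor
            · rintro ⟨hz, rfl | rfl | rfl⟩
              · rfl
              · exact absurd hz (a1 h1)
              · exact absurd h1 (a3 hz)
            · rintro rfl; exact ⟨h1, Or.inl rfl⟩
          · by_cases h2 : v ∈ T
            · right; right; left
              ext z; simp only [Finset.mem_inter, Finset.mem_insert, Finset.mem_singleton]
              constructor
              · rintro ⟨hz, rfl | rfl | rfl⟩
                · exact absurd hz h1
                · rfl
                · exact absurd hz (a2 h2)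
              · rintro rfl; exact ⟨h2, Or.inr (Or.inl rfl)⟩
            · by_cases h3 : y ∈ T
              · right; right; right
                ext z; simp only [Finset.mem_inter, Finset.mem_insert, Finset.mem_singleton]
                constructor
                · rintro ⟨hz, rfl | rfl | rfl⟩
                  · exact absurd hz h1
                  · exact absurd hz h2
                  · rfl
                · rintro rfl; exact ⟨h3, Or.inr (Or.inr rfl)⟩
              · left
                ext z; simp only [Finset.mem_inter, Finset.mem_insert, Finset.mem_singleton,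
                  Finset.notMem_empty, iff_false]
                rintro ⟨hz, rfl | rfl | rfl⟩
                · exact h1 hz
                · exact h2 hz
                · exact h3 hz
      · intro T _ T' _ h
        simp only [Prod.mk.injEq] at h
        rw [← Finset.sdiff_union_inter T {u, v, y}, ← Finset.sdiff_union_inter T' {u, v, y},
          h.1, h.2]
    rw [Finset.card_product] at hle
    have h3 : ({∅, {u}, {v}, {y}} : Finset (Finset A)).card ≤ 4 := Finset.card_le_four
    have h4 := sig_four (m - 3)
    have e : m - 3 + 3 = m := by omega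
    rw [e] at h4
    calc (good f W).card ≤ _ := hle
      _ ≤ sigmaMax (m - 3) * 4 := Nat.mul_le_mul hih h3
      _ ≤ sigmaMax m := by omega
  · -- longer cycle
    set g : A → A := Function.update f x y with hg
    have hgx : g x = y := by rw [hg]; simp
    have hgo : ∀ w, w ≠ x → g w = f w := by
      intro w hw; rw [hg, Function.update_of_ne hw]
    have hmap' : ∀ w ∈ W \ {u, v}, g w ∈ W \ {u, v} := by
      intro w hw
      rw [Finset.mem_sdiff] at hw ⊢
      by_cases hwx : w = x
      · subst hwx
        rw [hgx]
        refine ⟨hyW, ?_⟩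
        simp only [Finset.mem_insert, Finset.mem_singleton, not_or]
        exact ⟨hyu, hyv⟩
      · rw [hgo w hwx]
        refine ⟨hmap w hw.1, ?_⟩
        intro hc
        simp only [Finset.mem_insert, Finset.mem_singleton] at hc
        rcases hc with hc | hc
        · exact hwx (hinj hw.1 hxW (by rw [hc, hx]))
        · apply hw.2
          simp only [Finset.mem_insert, Finset.mem_singleton]
          left; exact hinj hw.1 hu (by rw [hc])
    have hinj' : Set.InjOn g (W \ {u, v} : Finset A) := by
      intro a ha b hb hab
      rw [Finset.mem_coe, Finset.mem_sdiff] at ha hb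
      by_cases hax : a = x
      · by_cases hbx : b = x
        · rw [hax, hbx]
        · exfalso
          rw [hax, hgx, hgo b hbx] at hab
          apply hb.2
          simp only [Finset.mem_insert, Finset.mem_singleton]
          right
          exact hinj hb.1 hvW (by rw [← hab])
      · by_cases hbx : b = x
        · exfalso
          rw [hbx, hgx, hgo a hax] at hab
          apply ha.2
          simp only [Finset.mem_insert, Finset.mem_singleton]
          right
          exact hinj ha.1 hvW (by rw [hab])
        · rw [hgo a hax, hgo b hbx] at hab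
          exact hinj ha.1 hb.1 hab
    have hne' : ∀ w ∈ W \ {u, v}, g w ≠ w := by
      intro w hw
      by_cases hwx : w = x
      · rw [hwx, hgx]; exact fun h => hxy h.symm
      · rw [hgo w hwx]; exact hne w (Finset.mem_sdiff.mp hw).1
    have hih := ih (m - 2) (by omega) (W \ {u, v}) g hWc hmap' hinj' hne'
    have hle : (good f W).card ≤
        ((good g (W \ {u, v})) ×ˢ ({∅, {u}, {v}} : Finset (Finset A))).card := by
      apply Finset.card_le_card_of_injOn
        (fun T => if x ∈ T ∧ y ∈ T then (T.erase x, {v}) else (T \ {u, v}, T ∩ {u, v}))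
      · intro T hT
        rw [Finset.mem_coe, mem_good] at hT
        have a1 : u ∈ T → v ∉ T := fun h => hT.2 u h
        have a2 : v ∈ T → y ∉ T := fun h => hT.2 v h
        have a3 : x ∈ T → u ∉ T := fun h => by
          have := hT.2 x h
          rwa [hx] at this
        rw [Finset.mem_coe]
        by_cases hb : x ∈ T ∧ y ∈ T
        · simp only [if_pos hb]
          rw [Finset.mem_product, mem_good]
          refine ⟨⟨?_, ?_⟩, by simp⟩
          · intro z hz
            have hz2 := Finset.mem_erase.mp hz
            rw [Finset.mem_sdiff]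
            refine ⟨hT.1 hz2.2, ?_⟩
            simp only [Finset.mem_insert, Finset.mem_singleton, not_or]
            constructor
            · rintro rfl; exact a3 hb.1 hz2.2
            · intro hzv
              rw [hzv] at hz2
              exact a2 hz2.2 hb.2
          · intro w hw hw2
            have hw' := Finset.mem_erase.mp hw
            have hw2' := Finset.mem_erase.mp hw2
            rw [hgo w hw'.1] at hw2'
            exact hT.2 w hw'.2 hw2'.2
        · simp only [if_neg hb]
          rw [Finset.mem_product, mem_good]
          refine ⟨⟨Finset.sdiff_subset_sdiff hT.1 (le_refl _), ?_⟩, ?_⟩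
          · intro w hw hw2
            have hw' := Finset.mem_sdiff.mp hw
            have hw2' := Finset.mem_sdiff.mp hw2
            by_cases hwx : w = x
            · rw [hwx, hgx] at hw2'
              rw [hwx] at hw'
              exact hb ⟨hw'.1, hw2'.1⟩
            · rw [hgo w hwx] at hw2'
              exact hT.2 w hw'.1 hw2'.1
          · simp only [Finset.mem_insert, Finset.mem_singleton]
            by_cases h1 : u ∈ T
            · right; left
              ext z; simp only [Finset.mem_inter, Finset.mem_insert, Finset.mem_singleton]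
              constructor
              · rintro ⟨hz, rfl | rfl⟩
                · rfl
                · exact absurd hz (a1 h1)
              · rintro rfl; exact ⟨h1, Or.inl rfl⟩
            · by_cases h2 : v ∈ T
              · right; right
                ext z; simp only [Finset.mem_inter, Finset.mem_insert, Finset.mem_singleton]
                constructor
                · rintro ⟨hz, rfl | rfl⟩
                  · exact absurd hz h1
                  · rfl
                · rintro rfl; exact ⟨h2, Or.inr rfl⟩
              · left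
                ext z; simp only [Finset.mem_inter, Finset.mem_insert, Finset.mem_singleton,
                  Finset.notMem_empty, iff_false]
                rintro ⟨hz, rfl | rfl⟩
                · exact h1 hz
                · exact h2 hz
      · intro T hT T' hT' h
        rw [Finset.mem_coe, mem_good] at hT hT'
        by_cases hb : x ∈ T ∧ y ∈ T
        · by_cases hb' : x ∈ T' ∧ y ∈ T'
          · simp only [if_pos hb, if_pos hb', Prod.mk.injEq] at h
            rw [← Finset.insert_erase hb.1, ← Finset.insert_erase hb'.1, h.1]
          · exfalso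
            simp only [if_pos hb, if_neg hb', Prod.mk.injEq] at h
            have h1 : v ∈ T' := by
              have : v ∈ T' ∩ {u, v} := by rw [← h.2]; simp
              exact (Finset.mem_inter.mp this).1
            have h2 : y ∈ T' := by
              have : y ∈ T' \ {u, v} := by
                rw [← h.1]; exact Finset.mem_erase.mpr ⟨fun e => hxy e.symm, hb.2⟩
              exact (Finset.mem_sdiff.mp this).1
            exact hT'.2 v h1 h2
        · by_cases hb' : x ∈ T' ∧ y ∈ T'
          · exfalso
            simp only [if_neg hb, if_pos hb', Prod.mk.injEq] at h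
            have h1 : v ∈ T := by
              have : v ∈ T ∩ {u, v} := by rw [h.2]; simp
              exact (Finset.mem_inter.mp this).1
            have h2 : y ∈ T := by
              have : y ∈ T \ {u, v} := by
                rw [h.1]; exact Finset.mem_erase.mpr ⟨fun e => hxy e.symm, hb'.2⟩
              exact (Finset.mem_sdiff.mp this).1
            exact hT.2 v h1 h2
          · simp only [if_neg hb, if_neg hb', Prod.mk.injEq] at h
            rw [← Finset.sdiff_union_inter T {u, v}, ← Finset.sdiff_union_inter T' {u, v},
              h.1, h.2]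
    rw [Finset.card_product] at hle
    have h3 : ({∅, {u}, {v}} : Finset (Finset A)).card ≤ 3 := Finset.card_le_three
    have h4 := sig_three (m - 2)
    have e : m - 2 + 2 = m := by omega
    rw [e] at h4
    calc (good f W).card ≤ _ := hle
      _ ≤ sigmaMax (m - 2) * 3 := Nat.mul_le_mul hih h3
      _ ≤ sigmaMax m := by omega

end Count

section Upper

/-- Adjacency in the conflict graph. -/
def adj {A : Type*} (R : A → A → Prop) (a b : A) : Prop := a ≠ b ∧ (R a b ∨ R b a)

lemma adj_symm {A : Type*} {R : A → A → Prop} {a b : A} (h : adj R a b) : adj R b a :=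
  ⟨h.1.symm, h.2.symm⟩

open Classical in
theorem com_le {A : Type*} [Fintype A] (R : A → A → Prop) :
    comCount R ≤ sigmaMax (Fintype.card A) := by
  -- neighbourhoods
  let N : Finset A → Finset A := fun X => Finset.univ.filter (fun b => ∃ a ∈ X, adj R a b)
  have hN : ∀ X b, b ∈ N X ↔ ∃ a ∈ X, adj R a b := by
    intro X b; simp [N]
  let indep : Finset A → Prop := fun X => ∀ a ∈ X, ∀ b ∈ X, ¬ adj R a b
  let φ : Finset A → ℤ := fun X => (X.card : ℤ) - ((N X).card : ℤ)
  obtain ⟨Sg, hSg, hmax⟩ := Finset.exists_max_image
    (Finset.univ.filter indep : Finset (Finset A)) φ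
    ⟨∅, by simp [indep]⟩
  have hSgi : indep Sg := (Finset.mem_filter.mp hSg).2
  have hmax' : ∀ X, indep X → φ X ≤ φ Sg := by
    intro X hX
    exact hmax X (Finset.mem_filter.mpr ⟨Finset.mem_univ _, hX⟩)
  set B := N Sg with hB
  have hBS : B.card ≤ Sg.card := by
    have h0 := hmax' ∅ (by simp [indep])
    have hN0 : N ∅ = ∅ := by ext b; simp [hN]
    simp only [φ, hN0, Finset.card_empty] at h0
    have : (B.card : ℤ) ≤ Sg.card := by linarith
    exact_mod_cast this
  have hdisj : Disjoint Sg B := by
    rw [Finset.disjoint_left]
    intro a ha hab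
    rw [hB, hN] at hab
    obtain ⟨c, hc, hca⟩ := hab
    exact hSgi c hc a ha hca
  set W := Finset.univ \ (Sg ∪ B) with hW
  have hWmem : ∀ a, a ∈ W ↔ a ∉ Sg ∧ a ∉ B := by
    intro a; simp [hW]
  have hcard : W.card + B.card + Sg.card = Fintype.card A := by
    have h1 : W.card = Fintype.card A - (Sg ∪ B).card := by
      rw [hW, Finset.card_sdiff_of_subset (Finset.subset_univ _), Finset.card_univ]
    have h2 : (Sg ∪ B).card = Sg.card + B.card := Finset.card_union_of_disjoint hdisj
    have h3 : (Sg ∪ B).card ≤ Fintype.card A := Finset.card_le_univ _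
    omega
  -- Hall's condition
  let t : {x // x ∈ W} → Finset A := fun w => W.filter (fun b => adj R w.1 b)
  have hall : ∀ s : Finset {x // x ∈ W}, s.card ≤ (s.biUnion t).card := by
    intro s
    by_contra hlt
    push Not at hlt
    set X : Finset A := s.map (Function.Embedding.subtype _) with hX
    set NX := s.biUnion t with hNX
    have hXc : X.card = s.card := by rw [hX, Finset.card_map]
    have hXW : ∀ a ∈ X, a ∈ W := by
      intro a ha
      rw [hX, Finset.mem_map] at ha
      obtain ⟨w, _, rfl⟩ := ha
      exact w.2
    have hNXm : ∀ b, b ∈ NX ↔ b ∈ W ∧ ∃ a ∈ X, adj R a b := by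
      intro b
      rw [hNX, Finset.mem_biUnion]
      constructor
      · rintro ⟨w, hw, hb⟩
        rw [Finset.mem_filter] at hb
        refine ⟨hb.1, w.1, ?_, hb.2⟩
        rw [hX, Finset.mem_map]
        exact ⟨w, hw, rfl⟩
      · rintro ⟨hb, a, ha, hab⟩
        rw [hX, Finset.mem_map] at ha
        obtain ⟨w, hw, rfl⟩ := ha
        exact ⟨w, hw, Finset.mem_filter.mpr ⟨hb, hab⟩⟩
    set I := X \ NX with hI
    have hind : indep (Sg ∪ I) := by
      intro a ha b hb hab
      rw [Finset.mem_union] at ha hb
      rcases ha with ha | ha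
      · rcases hb with hb | hb
        · exact hSgi a ha b hb hab
        · have hbW := (hWmem b).mp (hXW b (Finset.mem_sdiff.mp hb).1)
          exact hbW.2 (by rw [hB, hN]; exact ⟨a, ha, hab⟩)
      · rcases hb with hb | hb
        · have haW := (hWmem a).mp (hXW a (Finset.mem_sdiff.mp ha).1)
          exact haW.2 (by rw [hB, hN]; exact ⟨b, hb, adj_symm hab⟩)
        · have hb' := Finset.mem_sdiff.mp hb
          have ha' := Finset.mem_sdiff.mp ha
          exact hb'.2 ((hNXm b).mpr ⟨hXW b hb'.1, a, ha'.1, hab⟩)
    have hNsub : N (Sg ∪ I) ⊆ B ∪ (NX \ X) := by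
      intro b hb
      rw [hN] at hb
      obtain ⟨a, ha, hab⟩ := hb
      rw [Finset.mem_union] at ha
      rw [Finset.mem_union]
      by_cases hbB : b ∈ B
      · exact Or.inl hbB
      · right
        rcases ha with ha | ha
        · exact absurd (by rw [hB, hN]; exact ⟨a, ha, hab⟩) hbB
        · have ha' := Finset.mem_sdiff.mp ha
          have haW := (hWmem a).mp (hXW a ha'.1)
          have hbS : b ∉ Sg := by
            intro hbS
            exact haW.2 (by rw [hB, hN]; exact ⟨b, hbS, adj_symm hab⟩)
          have hbW : b ∈ W := (hWmem b).mpr ⟨hbS, hbB⟩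
          rw [Finset.mem_sdiff]
          refine ⟨(hNXm b).mpr ⟨hbW, a, ha'.1, hab⟩, ?_⟩
          intro hbX
          exact ha'.2 ((hNXm a).mpr ⟨hXW a ha'.1, b, hbX, adj_symm hab⟩)
    have hdI : Disjoint Sg I := by
      rw [Finset.disjoint_left]
      intro a ha hai
      exact ((hWmem a).mp (hXW a (Finset.mem_sdiff.mp hai).1)).1 ha
    have c1 : (Sg ∪ I).card = Sg.card + I.card := Finset.card_union_of_disjoint hdI
    have c2 : (N (Sg ∪ I)).card ≤ B.card + (NX \ X).card :=
      (Finset.card_le_card hNsub).trans (Finset.card_union_le _ _)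
    have c3 : I.card + (X ∩ NX).card = X.card := Finset.card_sdiff_add_card_inter X NX
    have c4 : (NX \ X).card + (NX ∩ X).card = NX.card := Finset.card_sdiff_add_card_inter NX X
    have c5 : (X ∩ NX).card = (NX ∩ X).card := by rw [Finset.inter_comm]
    have hm := hmax' _ hind
    simp only [φ] at hm
    rw [← hB] at hm
    rw [c1] at hm
    push_cast at hm
    have c2' : ((N (Sg ∪ I)).card : ℤ) ≤ B.card + (NX \ X).card := by exact_mod_cast c2
    have c3' : (I.card : ℤ) + (X ∩ NX).card = X.card := by exact_mod_cast c3
    have c4' : ((NX \ X).card : ℤ) + (NX ∩ X).card = NX.card := by exact_mod_cast c4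
    have c5' : ((X ∩ NX).card : ℤ) = (NX ∩ X).card := by exact_mod_cast c5
    have c6 : (NX.card : ℤ) < X.card := by
      rw [hXc]; exact_mod_cast hlt
    linarith
  obtain ⟨f, hfinj, hft⟩ := (Finset.all_card_le_biUnion_card_iff_exists_injective t).mp hall
  let F : A → A := fun a => if h : a ∈ W then f ⟨a, h⟩ else a
  have hF : ∀ a (h : a ∈ W), F a = f ⟨a, h⟩ := by
    intro a h; simp only [F, dif_pos h]
  have hFadj : ∀ a ∈ W, F a ∈ W ∧ adj R a (F a) := by
    intro a h
    rw [hF a h]
    have := hft ⟨a, h⟩
    rw [Finset.mem_filter] at this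
    exact this
  have hFinj : Set.InjOn F W := by
    intro a ha b hb hab
    rw [Finset.mem_coe] at ha hb
    rw [hF a ha, hF b hb] at hab
    have := hfinj hab
    exact congrArg Subtype.val this
  have hg := good_card W.card W F rfl (fun w hw => (hFadj w hw).1) hFinj
    (fun w hw => (hFadj w hw).2.1.symm)
  -- the encoding
  let lab : Set A → {x // x ∈ B} → Fin 3 := fun S b =>
    if b.1 ∈ S then 0 else if ∃ c ∈ S, R c b.1 then 1 else 2
  have hcf : ∀ S : Set A, IsComplete R S → W.filter (· ∈ S) ∈ good F W := by
    intro S hS
    rw [mem_good]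
    refine ⟨Finset.filter_subset _ _, ?_⟩
    intro w hw hw2
    rw [Finset.mem_filter] at hw hw2
    rcases (hFadj w hw.1).2.2 with h | h
    · exact hS.1.1 w hw.2 _ hw2.2 h
    · exact hS.1.1 _ hw2.2 w hw.2 h
  let Φ : {S : Set A // IsComplete R S} →
      {T : Finset A // T ∈ good F W} × ({x // x ∈ B} → Fin 3) :=
    fun S => (⟨W.filter (· ∈ S.1), hcf S.1 S.2⟩, lab S.1)
  have key : ∀ S S' : Set A, IsComplete R S → IsComplete R S' →
      W.filter (· ∈ S) = W.filter (· ∈ S') → lab S = lab S' → S ⊆ S' := by
    intro S S' hS hS' h1 h2 a ha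
    by_cases haW : a ∈ W
    · have : a ∈ W.filter (· ∈ S') := by
        rw [← h1]; exact Finset.mem_filter.mpr ⟨haW, ha⟩
      exact (Finset.mem_filter.mp this).2
    · by_cases haB : a ∈ B
      · have h3 := congrFun h2 ⟨a, haB⟩
        simp only [lab, if_pos ha] at h3
        by_contra hna
        rw [if_neg hna] at h3
        split_ifs at h3
        all_goals simp at h3
      · have haS : a ∈ Sg := by
          by_contra hna
          exact haW ((hWmem a).mpr ⟨hna, haB⟩)
        apply hS'.2
        intro b hb
        have hbS : b ∉ S := fun hbS => hS.1.1 b hbS a ha hb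
        have hba : a ≠ b := by
          rintro rfl; exact hbS ha
        have hbB : b ∈ B := by
          rw [hB, hN]; exact ⟨a, haS, hba, Or.inr hb⟩
        have hd := hS.1.2 a ha b hb
        have h3 := congrFun h2 ⟨b, hbB⟩
        simp only [lab, if_neg hbS, if_pos hd] at h3
        by_contra hnd
        rw [if_neg hnd] at h3
        split_ifs at h3
        all_goals simp at h3
  have hΦ : Function.Injective Φ := by
    intro S S' h
    simp only [Φ, Prod.mk.injEq, Subtype.mk.injEq] at h
    apply Subtype.ext
    exact Set.Subset.antisymm (key S.1 S'.1 S.2 S'.2 h.1 h.2)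
      (key S'.1 S.1 S'.2 S.2 h.1.symm h.2.symm)
  have hle := Nat.card_le_card_of_injective Φ hΦ
  have hc1 : comCount R = Nat.card {S : Set A // IsComplete R S} := by
    unfold comCount
    rw [← Nat.card_coe_set_eq]
    rfl
  have hc2 : Nat.card ({T : Finset A // T ∈ good F W} × ({x // x ∈ B} → Fin 3)) =
      (good F W).card * 3 ^ B.card := by
    rw [Nat.card_prod, Nat.card_eq_fintype_card, Nat.card_eq_fintype_card, Fintype.card_coe,
      Fintype.card_fun, Fintype.card_fin, Fintype.card_coe]
  rw [hc1]
  calc Nat.card {S : Set A // IsComplete R S} ≤ _ := hle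
    _ = (good F W).card * 3 ^ B.card := hc2
    _ ≤ sigmaMax W.card * 3 ^ B.card := Nat.mul_le_mul_right _ hg
    _ = 3 ^ B.card * sigmaMax W.card := by ring
    _ ≤ sigmaMax (W.card + 2 * B.card) := sig_pow _ _
    _ ≤ sigmaMax (Fintype.card A) := sig_mono (by omega)

end Upper

section Lower

/-- The set in the sum type with the two given parts. -/
def sumSet {A B : Type*} (S : Set A) (T : Set B) : Set (A ⊕ B) :=
  {x | Sum.elim (· ∈ S) (· ∈ T) x}

lemma sum_complete {A B : Type*} {R : A → A → Prop} {Q : B → B → Prop} {S : Set A} {T : Set B}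
    (hS : IsComplete R S) (hT : IsComplete Q T) :
    IsComplete (Sum.LiftRel R Q) (sumSet S T) := by
  refine ⟨⟨?_, ?_⟩, ?_⟩
  · intro a ha b hb hab
    rcases hab with h | h
    · exact hS.1.1 _ ha _ hb h
    · exact hT.1.1 _ ha _ hb h
  · intro a ha b hb
    rcases hb with h | h
    · obtain ⟨c, hc, hcb⟩ := hS.1.2 _ ha _ h
      exact ⟨Sum.inl c, hc, Sum.LiftRel.inl hcb⟩
    · obtain ⟨c, hc, hcb⟩ := hT.1.2 _ ha _ h
      exact ⟨Sum.inr c, hc, Sum.LiftRel.inr hcb⟩
  · intro a ha
    rcases a with a | a
    · apply hS.2 a
      intro b hb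
      obtain ⟨c, hc, hcb⟩ := ha (Sum.inl b) (Sum.LiftRel.inl hb)
      rcases hcb with h | h
      exact ⟨_, hc, h⟩
    · apply hT.2 a
      intro b hb
      obtain ⟨c, hc, hcb⟩ := ha (Sum.inr b) (Sum.LiftRel.inr hb)
      rcases hcb with h | h
      exact ⟨_, hc, h⟩

lemma sum_count {A B : Type*} [Finite A] [Finite B] (R : A → A → Prop) (Q : B → B → Prop) :
    comCount R * comCount Q ≤ comCount (Sum.LiftRel R Q) := by
  unfold comCount
  rw [← Nat.card_coe_set_eq, ← Nat.card_coe_set_eq, ← Nat.card_coe_set_eq, ← Nat.card_prod]
  apply Nat.card_le_card_of_injective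
    (fun p : {S : Set A | IsComplete R S} × {T : Set B | IsComplete Q T} =>
      (⟨sumSet p.1.1 p.2.1, sum_complete p.1.2 p.2.2⟩ :
        {S : Set (A ⊕ B) | IsComplete (Sum.LiftRel R Q) S}))
  rintro ⟨⟨S, hS⟩, ⟨T, hT⟩⟩ ⟨⟨S', hS'⟩, ⟨T', hT'⟩⟩ h
  simp only [Subtype.mk.injEq] at h
  have h1 : S = S' := by
    ext a
    have : (Sum.inl a : A ⊕ B) ∈ sumSet S T ↔ (Sum.inl a : A ⊕ B) ∈ sumSet S' T' := by rw [h]
    exact this
  have h2 : T = T' := by
    ext a
    have : (Sum.inr a : A ⊕ B) ∈ sumSet S T ↔ (Sum.inr a : A ⊕ B) ∈ sumSet S' T' := by rw [h]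
    exact this
  subst h1 h2
  rfl

lemma clique_count {K : Type*} [Finite K] (hK : ∀ a : K, ∃ b : K, b ≠ a) :
    Nat.card K + 1 ≤ comCount (fun a b : K => a ≠ b) := by
  classical
  unfold comCount
  rw [← Nat.card_coe_set_eq, ← Finite.card_option]
  have h0 : IsComplete (fun a b : K => a ≠ b) ∅ := by
    refine ⟨⟨by intro a ha; exact absurd ha (by simp), by intro a ha; exact absurd ha (by simp)⟩, ?_⟩
    intro a ha
    obtain ⟨b, hb⟩ := hK a
    obtain ⟨c, hc, _⟩ := ha b hb
    exact absurd hc (by simp)
  have h1 : ∀ x : K, IsComplete (fun a b : K => a ≠ b) {x} := by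
    intro x
    refine ⟨⟨?_, ?_⟩, ?_⟩
    · intro a ha b hb hab
      rw [Set.mem_singleton_iff] at ha hb
      exact hab (by rw [ha, hb])
    · intro a ha b hb
      rw [Set.mem_singleton_iff] at ha
      exact ⟨x, rfl, by rw [← ha]; exact hb.symm⟩
    · intro a ha
      rw [Set.mem_singleton_iff]
      by_contra hne
      obtain ⟨c, hc, hcb⟩ := ha x (fun h => hne h.symm)
      exact hcb hc
  apply Nat.card_le_card_of_injective
    (fun o : Option K => (match o with
      | none => ⟨∅, h0⟩
      | some x => ⟨{x}, h1 x⟩ : {S : Set K | IsComplete (fun a b : K => a ≠ b) S}))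
  intro o o' h
  rcases o with _ | x
  · rcases o' with _ | y
    · rfl
    · exfalso
      simp only [Subtype.mk.injEq] at h
      have : y ∈ (∅ : Set K) := by rw [h]; rfl
      exact this
  · rcases o' with _ | y
    · exfalso
      simp only [Subtype.mk.injEq] at h
      have : x ∈ (∅ : Set K) := by rw [← h]; rfl
      exact this
    · simp only [Subtype.mk.injEq] at h
      have : x ∈ ({y} : Set K) := by rw [← h]; rfl
      rw [Set.mem_singleton_iff] at this
      rw [this]

lemma triv_count {K : Type*} [Finite K] : 1 ≤ comCount (fun _ _ : K => False) := by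
  unfold comCount
  have hne : {S : Set K | IsComplete (fun _ _ : K => False) S}.Nonempty := by
    refine ⟨Set.univ, ⟨⟨?_, ?_⟩, ?_⟩⟩
    · intro a _ b _ h; exact h
    · intro a _ b hb; exact absurd hb (by simp)
    · intro a _; trivial
  exact (Set.ncard_pos (Set.toFinite _)).mpr hne

lemma lower (n : ℕ) : ∃ (A : Type) (R : A → A → Prop), Finite A ∧ Nat.card A = n ∧
    sigmaMax n ≤ comCount R := by
  induction n using Nat.strong_induction_on with
  | _ n ih =>
    match n, ih with
    | 0, _ =>
      exact ⟨Fin 0, fun _ _ => False, inferInstance, by simp, by rw [sig0]; exact triv_count⟩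
    | 1, _ =>
      exact ⟨Fin 1, fun _ _ => False, inferInstance, by simp, by rw [sig1]; exact triv_count⟩
    | 2, _ =>
      refine ⟨Fin 2, fun a b => a ≠ b, inferInstance, by simp, ?_⟩
      rw [sig2]
      have := clique_count (K := Fin 2) (by decide)
      simpa using this
    | 3, _ =>
      refine ⟨Fin 3, fun a b => a ≠ b, inferInstance, by simp, ?_⟩
      rw [sig3]
      have := clique_count (K := Fin 3) (by decide)
      simpa using this
    | n + 4, ih =>
      obtain ⟨A, R, hA, hc, hs⟩ := ih (n + 2) (by omega)
      refine ⟨A ⊕ Fin 2, Sum.LiftRel R (fun a b => a ≠ b), inferInstance, ?_, ?_⟩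
      · rw [Nat.card_sum, hc]; simp
      · have h1 := sig_rec (n + 2) (by omega)
        have e1 : n + 2 + 2 = n + 4 := by omega
        rw [e1] at h1
        have h2 := clique_count (K := Fin 2) (by decide)
        have h3 : 3 ≤ comCount (fun a b : Fin 2 => a ≠ b) := by simpa using h2
        calc sigmaMax (n + 4) = sigmaMax (n + 2) * 3 := by rw [h1]; ring
          _ ≤ comCount R * comCount (fun a b : Fin 2 => a ≠ b) := Nat.mul_le_mul hs h3
          _ ≤ _ := sum_count _ _

end Lower

/-- The maximal number of complete extensions of an argumentation framework with `n` arguments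
is `1` for `n ≤ 1`, `3 ^ (n / 2)` for even `n ≥ 2` and `4 * 3 ^ ((n - 3) / 2)` for odd `n ≥ 3`. -/
theorem result (n : ℕ) :
    IsGreatest {k : ℕ | ∃ (A : Type) (R : A → A → Prop), Finite A ∧ Nat.card A = n ∧
      comCount R = k}
      (if n ≤ 1 then 1 else if Even n then 3 ^ (n / 2) else 4 * 3 ^ ((n - 3) / 2)) := by
  constructor
  · obtain ⟨A, R, hA, hc, hs⟩ := lower n
    refine ⟨A, R, hA, hc, ?_⟩
    have := Fintype.ofFinite A
    have hu := com_le R
    rw [← Nat.card_eq_fintype_card, hc] at hu
    exact le_antisymm hu hs
  · rintro k ⟨A, R, hA, hc, rfl⟩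
    have := Fintype.ofFinite A
    have hu := com_le R
    rw [← Nat.card_eq_fintype_card, hc] at hu
    exact hu

end Pool.Agent.Results.MP_acab80_co.SigmaMax
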